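import Mathlib
import Pool.Agent.Helper71.PY.Goals

/-! Packet PY-MAIN (MP_293fae_al): assembly of the representation theorem. -/

set_option autoImplicit false

namespace Pool.Agent.Helper11.PY

open Pool.Agent.Helper71.PY Matrix

theorem main (h1 : G_REG) (h2 : G_LAT) (h3 : G_PP) (h4 : G_SPM) (h5 : G_IND) (h6 : G_FIN) :
    G_MAIN := by
  intro R _ _ _ _ hdim hab h2u K _ _ _ n u hu f hz
  obtain ⟨x, y, hm⟩ := hab
  have hreg : Reg2 R x y := h1 R x y hdim hm
  obtain ⟨z, hz⟩ := hz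
  obtain ⟨S, A, c, hS, hdet, hA, hmap, hf⟩ := h2 R x y hreg K n u hu f z (by
    rw [hz]; exact Finset.sum_congr rfl (fun i _ => by ring))
  obtain ⟨P, hP⟩ := h3 R K n u hu S A hA hmap
  have hdn : IsUnit (Matrix.diagonal (fun i => - u i)).det := by
    rw [Matrix.det_diagonal]
    exact IsUnit.prod_univ_iff.2 (fun i => (hu i).neg)
  have hsp : Sp (os (mf S) (mf (Matrix.diagonal fun i => - u i))) :=
    h4.2.1 R _ _ _ _ (h4.1 R n S hS hdet)
      (h4.1 R n _ (Matrix.diagonal_transpose _) hdn)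
  have hsh : SH (os (mf S) (mf (Matrix.diagonal fun i => - u i))) :=
    h5 R x y hreg h2u _ _ hsp P hP
  obtain ⟨e, he⟩ := h6 R h2u n u hu S hS hsh
  refine ⟨e c, ?_⟩
  have h := he c c
  rw [mf_apply, mf_apply, hf] at h
  rw [← h]
  simp only [dotProduct, Matrix.mulVec_diagonal]
  exact Finset.sum_congr rfl (fun i _ => by ring)

end Pool.Agent.Helper11.PY
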